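import Pool.Agent.Helper96.MP.Defs

/-!
# MP_bde085_nt, module EIG: commuting families of endomorphisms
-/

set_option autoImplicit false

namespace Pool.Agent.Helper96.MP

open Complex MeasureTheory Filter Topology Set
open scoped MatrixGroups

theorem eig_one (V : Type) [AddCommGroup V] [Module ℂ V] [FiniteDimensional ℂ V] (ι : Type)
    (T : ι → Module.End ℂ V) (hT : ∀ i j, T i * T j = T j * T i) :
    ∀ (n : ℕ) (U : Submodule ℂ V), Module.finrank ℂ U = n → U ≠ ⊥ →
      (∀ i, ∀ x ∈ U, T i x ∈ U) → ∃ x ∈ U, ∃ μ : ι → ℂ, x ≠ 0 ∧ ∀ i, T i x = μ i • x := by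
  intro n
  induction n using Nat.strong_induction_on with
  | _ n ih =>
    intro U hn hU hst
    by_cases hs : ∀ i, ∃ μ : ℂ, ∀ x ∈ U, T i x = μ • x
    · choose μ hμ using hs
      obtain ⟨x, hx, hx0⟩ := U.exists_mem_ne_zero_of_ne_bot hU
      exact ⟨x, hx, μ, hx0, fun i => hμ i x hx⟩
    · push Not at hs
      obtain ⟨i, hi⟩ := hs
      have hnt : Nontrivial U := (Submodule.nontrivial_iff_ne_bot).2 hU
      obtain ⟨μ, hμ⟩ := Module.End.exists_eigenvalue ((T i).restrict (hst i))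
      obtain ⟨y, hy⟩ := hμ.exists_hasEigenvector
      have hy1 : T i y.1 = μ • y.1 := congrArg Subtype.val hy.apply_eq_smul
      have hy0 : y.1 ≠ 0 := fun h => hy.2 (Subtype.ext h)
      let U' : Submodule ℂ V := U ⊓ LinearMap.ker (T i - μ • (1 : Module.End ℂ V))
      have hU' : ∀ x, x ∈ U' ↔ x ∈ U ∧ T i x = μ • x := by
        intro x
        simp only [U', Submodule.mem_inf, LinearMap.mem_ker, LinearMap.sub_apply,
          LinearMap.smul_apply, Module.End.one_apply, sub_eq_zero]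
      have hne : U' ≠ ⊥ := by
        intro h
        have : y.1 ∈ U' := (hU' _).2 ⟨y.2, hy1⟩
        rw [h, Submodule.mem_bot] at this
        exact hy0 this
      have hlt : U' < U := by
        refine lt_of_le_of_ne inf_le_left ?_
        intro h
        obtain ⟨x, hx, hx'⟩ := hi μ
        rw [← h, hU'] at hx
        exact hx' hx.2
      have hst' : ∀ j, ∀ x ∈ U', T j x ∈ U' := by
        intro j x hx
        rw [hU'] at hx ⊢
        refine ⟨hst j x hx.1, ?_⟩
        have h1 : T i (T j x) = T j (T i x) := LinearMap.congr_fun (hT i j) x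
        rw [h1, hx.2, map_smul]
      obtain ⟨x, hx, μ', hx0, hμ'⟩ := ih (Module.finrank ℂ U')
        (by rw [← hn]; exact Submodule.finrank_lt_finrank_of_lt hlt) U' rfl hne hst'
      exact ⟨x, ((hU' x).1 hx).1, μ', hx0, hμ'⟩

theorem eig_two (V W : Type) [AddCommGroup V] [Module ℂ V] [AddCommGroup W] [Module ℂ W]
    [FiniteDimensional ℂ V] (ι : Type) (T : ι → Module.End ℂ V) (S : ι → Module.End ℂ W)
    (Ψ : V →ₗ[ℂ] W) (lam : ι → ℂ)
    (hT : ∀ i j, T i * T j = T j * T i) (hΨ : ∀ i x, Ψ (T i x) = S i (Ψ x))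
    (v : V) (hv : Ψ v ≠ 0) (hS : ∀ i, S i (Ψ v) = lam i • Ψ v) :
    (⨅ i, (T i).maxGenEigenspace (lam i)) ≠ ⊥ := by
  intro hbot
  have hst : ∀ i, ∀ y ∈ LinearMap.range Ψ, S i y ∈ LinearMap.range Ψ := by
    rintro i y ⟨x, rfl⟩
    exact ⟨T i x, hΨ i x⟩
  let S' : ι → Module.End ℂ (LinearMap.range Ψ) := fun i => (S i).restrict (hst i)
  let Ψ' : V →ₗ[ℂ] LinearMap.range Ψ := Ψ.rangeRestrict
  have hΨ' : ∀ i x, Ψ' (T i x) = S' i (Ψ' x) := by
    intro i x
    apply Subtype.ext
    exact hΨ i x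
  have hsurj : Function.Surjective Ψ' := Ψ.surjective_rangeRestrict
  have hS' : ∀ i j, Commute (S' i) (S' j) := by
    intro i j
    apply LinearMap.ext
    intro y
    obtain ⟨x, rfl⟩ := hsurj y
    have h1 : T i (T j x) = T j (T i x) := LinearMap.congr_fun (hT i j) x
    simp only [Module.End.mul_apply]
    rw [← hΨ', ← hΨ', ← hΨ', ← hΨ', h1]
  have hind := Module.End.independent_iInf_maxGenEigenspace_of_forall_mapsTo S'
    (fun i j φ => Module.End.mapsTo_maxGenEigenspace_of_comm (hS' j i) φ)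
  have htop := Module.End.iSup_iInf_maxGenEigenspace_eq_top_of_forall_mapsTo T
    (fun i j φ => Module.End.mapsTo_maxGenEigenspace_of_comm (hT j i) φ)
    (fun i => Module.End.iSup_maxGenEigenspace_eq_top (T i))
  have hpow : ∀ (i : ι) (c : ℂ) (k : ℕ) (x : V),
      Ψ' (((T i - c • 1) ^ k) x) = ((S' i - c • 1) ^ k) (Ψ' x) := by
    intro i c k
    induction k with
    | zero => intro x; rfl
    | succ k ihk =>
      intro x
      rw [pow_succ, pow_succ, Module.End.mul_apply, Module.End.mul_apply, ihk]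
      congr 1
      simp only [LinearMap.sub_apply, LinearMap.smul_apply, Module.End.one_apply, map_sub,
        map_smul, hΨ']
  have hmap : ∀ χ : ι → ℂ, (⨅ i, (T i).maxGenEigenspace (χ i)).map Ψ' ≤
      ⨅ i, (S' i).maxGenEigenspace (χ i) := by
    rintro χ y ⟨x, hx, rfl⟩
    rw [Module.End.mem_iInf_maxGenEigenspace_iff]
    intro j
    obtain ⟨k, hk⟩ := (Module.End.mem_iInf_maxGenEigenspace_iff _ _ _).1 hx j
    exact ⟨k, by rw [← hpow, hk, map_zero]⟩
  have h1 : Ψ' v ∈ ⨆ (χ : ι → ℂ) (_ : χ ≠ lam), ⨅ i, (S' i).maxGenEigenspace (χ i) := by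
    have h2 : v ∈ ⨆ χ : ι → ℂ, ⨅ i, (T i).maxGenEigenspace (χ i) := by
      rw [htop]; exact Submodule.mem_top
    have h3 : Ψ' v ∈ (⨆ χ : ι → ℂ, ⨅ i, (T i).maxGenEigenspace (χ i)).map Ψ' :=
      Submodule.mem_map_of_mem h2
    rw [Submodule.map_iSup] at h3
    refine (iSup_le (fun χ => ?_) : (⨆ χ : ι → ℂ, (⨅ i, (T i).maxGenEigenspace (χ i)).map Ψ') ≤ _) h3
    by_cases hχ : χ = lam
    · rw [hχ, hbot, Submodule.map_bot]
      exact bot_le
    · exact (hmap χ).trans (le_iSup₂_of_le χ hχ le_rfl)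
  have h4 : Ψ' v ∈ ⨅ i, (S' i).maxGenEigenspace (lam i) := by
    rw [Module.End.mem_iInf_maxGenEigenspace_iff]
    intro j
    refine ⟨1, ?_⟩
    rw [pow_one, LinearMap.sub_apply, sub_eq_zero]
    apply Subtype.ext
    exact hS j
  have h5 := (Submodule.disjoint_def.1 (hind lam)) _ h4 h1
  exact hv (congrArg Subtype.val h5)

theorem st_EIG : ST_EIG := by
  intro V W _ _ _ _ _ ι T S Ψ lam hT hΨ
  refine ⟨?_, ?_⟩
  · intro v hv
    obtain ⟨x, -, μ, hx0, hμ⟩ := eig_one V ι T hT _ ⊤ rfl (by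
      intro h
      have : v ∈ (⊤ : Submodule ℂ V) := Submodule.mem_top
      rw [h, Submodule.mem_bot] at this
      exact hv this) (fun i x _ => Submodule.mem_top)
    exact ⟨x, μ, hx0, hμ⟩
  · intro v hv hS
    have hne := eig_two V W ι T S Ψ lam hT hΨ v hv hS
    obtain ⟨x, hx, μ, hx0, hμ⟩ := eig_one V ι T hT _ (⨅ i, (T i).maxGenEigenspace (lam i)) rfl hne
      (by
        intro i x hx
        rw [Submodule.mem_iInf] at hx ⊢
        intro j
        exact Module.End.mapsTo_maxGenEigenspace_of_comm (hT j i) (lam j) (hx j))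
    refine ⟨x, hx0, fun i => ?_⟩
    rw [hμ i]
    obtain ⟨k, hk⟩ := (Module.End.mem_iInf_maxGenEigenspace_iff _ _ _).1 hx i
    have hpow : ∀ k : ℕ, ((T i - lam i • 1) ^ k) x = (μ i - lam i) ^ k • x := by
      intro k
      induction k with
      | zero => simp
      | succ k ihk =>
        rw [pow_succ', Module.End.mul_apply, ihk, map_smul, LinearMap.sub_apply,
          LinearMap.smul_apply, Module.End.one_apply, hμ i, ← sub_smul, smul_smul, pow_succ]
    rw [hpow k] at hk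
    rcases smul_eq_zero.1 hk with h | h
    · rw [sub_eq_zero.1 (eq_zero_of_pow_eq_zero h)]
    · exact absurd h hx0

end Pool.Agent.Helper96.MP
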