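import Pool.Agent.Helper96.MP.Defs

/-!
# MP_bde085_nt, module MONE: strong multiplicity one
-/

set_option autoImplicit false

namespace Pool.Agent.Helper96.MP

open Complex MeasureTheory Filter Topology
open scoped MatrixGroups

/-- Hecke operator as a linear map -/
noncomputable def mone_T (l : ℕ) : Module.End ℂ (ℕ → ℂ) where
  toFun b := Tl l b
  map_add' b c := by
    funext n
    simp only [Tl, Pi.add_apply]
    split_ifs <;> ring
  map_smul' t b := by
    funext n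
    simp only [Tl, Pi.smul_apply, smul_eq_mul, RingHom.id_apply]
    split_ifs <;> ring

theorem mone_T_apply (l : ℕ) (b : ℕ → ℂ) (n : ℕ) : mone_T l b n = Tl l b n := rfl

/-- the degeneracy map -/
noncomputable def mone_B (p : ℕ) : Module.End ℂ (ℕ → ℂ) where
  toFun b := fun n => if p ∣ n then b (n / p) else 0
  map_add' b c := by
    funext n
    simp only [Pi.add_apply]
    split_ifs <;> ring
  map_smul' t b := by
    funext n
    simp only [Pi.smul_apply, smul_eq_mul, RingHom.id_apply]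
    split_ifs <;> ring

theorem mone_B_apply (p : ℕ) (b : ℕ → ℂ) (n : ℕ) :
    mone_B p b n = if p ∣ n then b (n / p) else 0 := rfl

theorem mone_comm (l m : ℕ) (hl : l.Prime) (hm : m.Prime) (b : ℕ → ℂ) :
    mone_T l (mone_T m b) = mone_T m (mone_T l b) := by
  rcases eq_or_ne l m with h | h
  · subst h; rfl
  have hc : Nat.Coprime l m := (Nat.coprime_primes hl hm).2 h
  funext n
  simp only [mone_T_apply, Tl]
  have e1 : m ∣ l * n ↔ m ∣ n := ⟨fun h => (Nat.Coprime.dvd_of_dvd_mul_left hc.symm h),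
    fun h => Dvd.dvd.mul_left h l⟩
  have e2 : l ∣ m * n ↔ l ∣ n := ⟨fun h => (Nat.Coprime.dvd_of_dvd_mul_left hc h),
    fun h => Dvd.dvd.mul_left h m⟩
  rw [show m * (l * n) = l * (m * n) by ring]
  simp only [e1, e2]
  by_cases h1 : l ∣ n
  · by_cases h2 : m ∣ n
    · obtain ⟨k, rfl⟩ := Nat.Coprime.mul_dvd_of_dvd_of_dvd hc h1 h2
      have a1 : l * (l * m * k) / m = l * l * k :=
        Nat.div_eq_of_eq_mul_left hm.pos (by ring)
      have a2 : m * (l * m * k) / l = m * m * k :=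
        Nat.div_eq_of_eq_mul_left hl.pos (by ring)
      have a3 : l * m * k / l = m * k := Nat.div_eq_of_eq_mul_left hl.pos (by ring)
      have a4 : l * m * k / m = l * k := Nat.div_eq_of_eq_mul_left hm.pos (by ring)
      have a5 : m * k / m = k := Nat.mul_div_cancel_left k hm.pos
      have a6 : l * k / l = k := Nat.mul_div_cancel_left k hl.pos
      rw [a1, a2, a3, a4, a5, a6, if_pos h2, if_pos h1, if_pos h1, if_pos h2,
        if_pos (Nat.dvd_mul_right m k), if_pos (Nat.dvd_mul_right l k),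
        show m * (m * k) = m * m * k by ring, show l * (l * k) = l * l * k by ring]
      ring
    · have h3 : ¬ m ∣ n / l := fun h => h2 (h.trans (Nat.div_dvd_of_dvd h1))
      rw [if_neg h2, if_pos h1, if_neg h3, if_pos h1, if_neg h2, Nat.mul_div_assoc m h1]
      ring
  · by_cases h2 : m ∣ n
    · have h3 : ¬ l ∣ n / m := fun h => h1 (h.trans (Nat.div_dvd_of_dvd h2))
      rw [if_pos h2, if_neg h1, if_neg h1, if_pos h2, if_neg h3, Nat.mul_div_assoc l h2]
      ring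
    · rw [if_neg h2, if_neg h1, if_neg h1, if_neg h2]

theorem mone_comm_B (l p : ℕ) (hl : l.Prime) (hp : p.Prime) (hlp : l ≠ p) (b : ℕ → ℂ) :
    mone_T l (mone_B p b) = mone_B p (mone_T l b) := by
  have hc : Nat.Coprime l p := (Nat.coprime_primes hl hp).2 hlp
  funext n
  simp only [mone_T_apply, mone_B_apply, Tl]
  have e1 : p ∣ l * n ↔ p ∣ n := ⟨fun h => (Nat.Coprime.dvd_of_dvd_mul_left hc.symm h),
    fun h => Dvd.dvd.mul_left h l⟩
  simp only [e1]
  by_cases h1 : l ∣ n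
  · by_cases h2 : p ∣ n
    · obtain ⟨k, rfl⟩ := Nat.Coprime.mul_dvd_of_dvd_of_dvd hc h1 h2
      have a1 : l * (l * p * k) / p = l * (l * k) :=
        Nat.div_eq_of_eq_mul_left hp.pos (by ring)
      have a3 : l * p * k / l = p * k := Nat.div_eq_of_eq_mul_left hl.pos (by ring)
      have a4 : l * p * k / p = l * k := Nat.div_eq_of_eq_mul_left hp.pos (by ring)
      have a5 : p * k / p = k := Nat.mul_div_cancel_left k hp.pos
      have a6 : l * k / l = k := Nat.mul_div_cancel_left k hl.pos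
      rw [a1, a3, a4, a5, a6, if_pos h2, if_pos h1, if_pos (Nat.dvd_mul_right p k), if_pos h2,
        if_pos (Nat.dvd_mul_right l k)]
    · have h3 : ¬ p ∣ n / l := fun h => h2 (h.trans (Nat.div_dvd_of_dvd h1))
      rw [if_neg h2, if_pos h1, if_neg h3, if_neg h2]
      ring
  · by_cases h2 : p ∣ n
    · have h3 : ¬ l ∣ n / p := fun h => h1 (h.trans (Nat.div_dvd_of_dvd h2))
      rw [if_pos h2, if_neg h1, if_pos h2, if_neg h3, Nat.mul_div_assoc l h2]
    · rw [if_neg h2, if_neg h1, if_neg h2]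
      ring

theorem mone_E1 (hE : ST_EIG) (V : Submodule ℂ (ℕ → ℂ)) [FiniteDimensional ℂ V] (L : Set ℕ)
    (hL : ∀ l ∈ L, l.Prime) (hst : ∀ l ∈ L, ∀ b ∈ V, mone_T l b ∈ V) (v : ℕ → ℂ) (hv : v ∈ V)
    (hv0 : v ≠ 0) :
    ∃ x ∈ V, x ≠ 0 ∧ ∃ μ : ℕ → ℂ, ∀ l ∈ L, mone_T l x = μ l • x := by
  classical
  let T : L → Module.End ℂ V := fun l => (mone_T l.1).restrict (hst l.1 l.2)
  have hT : ∀ i j, T i * T j = T j * T i := by
    intro i j
    apply LinearMap.ext
    intro x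
    apply Subtype.ext
    exact mone_comm i.1 j.1 (hL _ i.2) (hL _ j.2) x.1
  obtain ⟨h1, -⟩ := hE V (ℕ → ℂ) L T (fun l => mone_T l.1) V.subtype (fun _ => 0) hT
    (by intro i x; rfl)
  obtain ⟨x, μ, hx0, hx⟩ := h1 ⟨v, hv⟩ (by
    intro h
    exact hv0 (congrArg Subtype.val h))
  refine ⟨x.1, x.2, ?_, fun l => if h : l ∈ L then μ ⟨l, h⟩ else 0, ?_⟩
  · intro h
    exact hx0 (Subtype.ext h)
  · intro l hl
    have := congrArg Subtype.val (hx ⟨l, hl⟩)
    simp only [dif_pos hl]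
    exact this

theorem mone_E2 (hE : ST_EIG) (hFD : ST_FD) (hH : ST_HECKE) (M : ℕ) (hM : 1 ≤ M) (w : ℕ → ℂ)
    (u : ℕ → ℕ → ℂ) (lam : ℕ → ℂ)
    (hu : ∀ p ∈ M.primeFactors, Cusp (M / p) (u p))
    (hw : ∀ n, w n = ∑ p ∈ M.primeFactors, if p ∣ n then u p (n / p) else 0)
    (hw0 : w ≠ 0)
    (hlam : ∀ l : ℕ, l.Prime → ¬ l ∣ M → mone_T l w = lam l • w) :
    ∃ p ∈ M.primeFactors, ∃ x, Cusp (M / p) x ∧ x ≠ 0 ∧
      ∀ l : ℕ, l.Prime → ¬ l ∣ M → mone_T l x = lam l • x := by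
  classical
  choose S hS using hFD
  have hpos : ∀ p : {p // p ∈ M.primeFactors}, 1 ≤ M / p.1 := by
    intro p
    have h1 : p.1 ∣ M := Nat.dvd_of_mem_primeFactors p.2
    exact Nat.div_pos (Nat.le_of_dvd hM h1) (Nat.prime_of_mem_primeFactors p.2).pos
  let V : Type := ∀ p : {p // p ∈ M.primeFactors}, S (M / p.1) (hpos p)
  have hfd : ∀ p : {p // p ∈ M.primeFactors}, FiniteDimensional ℂ (S (M / p.1) (hpos p)) :=
    fun p => (hS _ (hpos p)).2
  have : FiniteDimensional ℂ (∀ p : {p // p ∈ M.primeFactors}, S (M / p.1) (hpos p)) :=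
    inferInstance
  let ι : Type := {l : ℕ // l.Prime ∧ ¬ l ∣ M}
  have hst : ∀ (l : ι) (p : {p // p ∈ M.primeFactors}), ∀ b ∈ S (M / p.1) (hpos p),
      mone_T l.1 b ∈ S (M / p.1) (hpos p) := by
    intro l p b hb
    rw [(hS _ (hpos p)).1] at hb ⊢
    exact hH _ l.1 b (hpos p) l.2.1 (fun h => l.2.2
      (h.trans (Nat.div_dvd_of_dvd (Nat.dvd_of_mem_primeFactors p.2)))) hb
  let T : ι → Module.End ℂ (∀ p : {p // p ∈ M.primeFactors}, S (M / p.1) (hpos p)) := fun l =>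
    LinearMap.pi (fun p => ((mone_T l.1).restrict (hst l p)).comp (LinearMap.proj p))
  have hTa : ∀ (l : ι) (x : ∀ p : {p // p ∈ M.primeFactors}, S (M / p.1) (hpos p))
      (p : {p // p ∈ M.primeFactors}), (T l x p).1 = mone_T l.1 (x p).1 := fun l x p => rfl
  let Ψ : (∀ p : {p // p ∈ M.primeFactors}, S (M / p.1) (hpos p)) →ₗ[ℂ] (ℕ → ℂ) :=
    ∑ p : {p // p ∈ M.primeFactors},
      ((mone_B p.1).comp (S (M / p.1) (hpos p)).subtype).comp (LinearMap.proj p)
  have hΨa : ∀ x : (∀ p : {p // p ∈ M.primeFactors}, S (M / p.1) (hpos p)),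
      Ψ x = ∑ p : {p // p ∈ M.primeFactors}, mone_B p.1 (x p).1 := by
    intro x
    simp only [Ψ, LinearMap.sum_apply, LinearMap.comp_apply, LinearMap.proj_apply,
      Submodule.subtype_apply]
  have hT : ∀ i j, T i * T j = T j * T i := by
    intro i j
    apply LinearMap.ext
    intro x
    funext p
    apply Subtype.ext
    exact mone_comm i.1 j.1 i.2.1 j.2.1 (x p).1
  have hΨT : ∀ (i : ι) (x : (∀ p : {p // p ∈ M.primeFactors}, S (M / p.1) (hpos p))),
      Ψ (T i x) = mone_T i.1 (Ψ x) := by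
    intro i x
    rw [hΨa, hΨa, map_sum]
    refine Finset.sum_congr rfl (fun p _ => ?_)
    rw [hTa]
    refine (mone_comm_B i.1 p.1 i.2.1 (Nat.prime_of_mem_primeFactors p.2) ?_ _).symm
    intro h
    exact i.2.2 (h ▸ Nat.dvd_of_mem_primeFactors p.2)
  obtain ⟨-, h2⟩ := hE _ (ℕ → ℂ) ι T (fun l => mone_T l.1) Ψ (fun l => lam l.1) hT hΨT
  let v : (∀ p : {p // p ∈ M.primeFactors}, S (M / p.1) (hpos p)) :=
    fun p => ⟨u p.1, (hS _ (hpos p)).1 _ |>.2 (hu p.1 p.2)⟩
  have hv : Ψ v = w := by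
    rw [hΨa]
    funext n
    rw [hw n, Finset.sum_apply]
    exact Finset.sum_coe_sort M.primeFactors (fun p => if p ∣ n then u p (n / p) else 0)
  obtain ⟨x, hx0, hx⟩ := h2 v (by rw [hv]; exact hw0) (by
    intro i
    rw [hv]
    exact hlam i.1 i.2.1 i.2.2)
  have : ∃ p, x p ≠ 0 := by
    by_contra hcon
    push Not at hcon
    exact hx0 (funext hcon)
  obtain ⟨p, hp⟩ := this
  refine ⟨p.1, p.2, (x p).1, ?_, ?_, ?_⟩
  · exact (hS _ (hpos p)).1 _ |>.1 (x p).2
  · intro h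
    exact hp (Subtype.ext h)
  · intro l hl hlM
    have h3 := congrFun (hx ⟨l, hl, hlM⟩) p
    have h4 := congrArg Subtype.val h3
    exact h4

theorem mone_van (N Y : ℕ) (g : ℕ → ℂ) (c : ℕ → ℂ)
    (hT : ∀ l : ℕ, l.Prime → ¬ l ∣ N → l ≤ Y → ∀ n, Tl l g n = c l * g n)
    (h0 : g 0 = 0) (h1 : g 1 = 0) : ∀ n : ℕ, n ≤ Y → Nat.Coprime n N → g n = 0 := by
  intro n
  induction n using Nat.strong_induction_on with
  | _ n ih =>
    intro hn hc
    rcases Nat.eq_zero_or_pos n with h | h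
    · subst h; exact h0
    rcases eq_or_ne n 1 with h' | h'
    · subst h'; exact h1
    obtain ⟨l, hl, m, rfl⟩ := Nat.exists_prime_and_dvd h'
    have hlN : ¬ l ∣ N := by
      intro hd
      have : l ∣ Nat.gcd (l * m) N := Nat.dvd_gcd (Nat.dvd_mul_right l m) hd
      rw [hc] at this
      exact hl.one_lt.ne' (Nat.dvd_one.1 this)
    have hm : 0 < m := Nat.pos_of_mul_pos_left h
    have hmlt : m < l * m := by
      have := hl.two_le
      nlinarith
    have hll : l ≤ l * m := Nat.le_mul_of_pos_right l hm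
    have h2 := hT l hl hlN (hll.trans hn) m
    have h3 : g m = 0 := ih m hmlt (hmlt.le.trans hn) (Nat.Coprime.coprime_mul_left hc)
    unfold Tl at h2
    rw [h3, mul_zero] at h2
    split_ifs at h2 with hd
    · have h4 : g (m / l) = 0 := by
        have h5 : m / l ≤ m := Nat.div_le_self m l
        refine ih (m / l) (lt_of_le_of_lt h5 hmlt) (h5.trans (hmlt.le.trans hn)) ?_
        exact Nat.Coprime.of_dvd_left (Nat.div_dvd_of_dvd hd) (Nat.Coprime.coprime_mul_left hc)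
      rw [h4, mul_zero, add_zero] at h2
      exact h2
    · rw [add_zero] at h2
      exact h2

theorem mone_cusp_mono {M N : ℕ} (h : M ∣ N) {b : ℕ → ℂ} (hb : Cusp M b) : Cusp N b :=
  ⟨hb.sum, fun τ hτ p q r s h1 h2 => hb.inv τ hτ p q r s h1
    ((Int.natCast_dvd_natCast.2 h).trans h2), hb.bdd⟩

/-- a form of level `N` with eigenvalues `a l` for `l ≤ N ^ 6` is proportional to `a` away
from `N` -/
theorem mone_away (hD : ST_DEPL) (hS : ST_STURM) (hFD : ST_FD) (hQ : ST_QDIF)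
    (N : ℕ) (a : ℕ → ℤ) (hN : 1 ≤ N) (ha : Newform N a) (b : ℕ → ℂ) (hb : Cusp N b)
    (hT : ∀ l : ℕ, l.Prime → ¬ l ∣ N → l ≤ N ^ 6 → ∀ n, Tl l b n = (a l : ℂ) * b n) :
    ∀ n, Nat.Coprime n N → b n = b 1 * a n := by
  obtain ⟨S, hS1, -⟩ := hFD N hN
  set g : ℕ → ℂ := b - (b 1) • (fun k => (a k : ℂ)) with hg
  have hgc : Cusp N g := by
    rw [← hS1]
    exact S.sub_mem ((hS1 _).2 hb) (S.smul_mem _ ((hS1 _).2 ha.cusp))
  have h0 : g 0 = 0 := (hQ N g hN hgc).1
  have h1 : g 1 = 0 := by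
    simp [hg, ha.one]
  have hTa : ∀ l : ℕ, l.Prime → ¬ l ∣ N → ∀ n, Tl l (fun k => (a k : ℂ)) n = (a l : ℂ) * a n := by
    intro l hl hlN n
    have := ha.hecke l hl hlN n
    unfold Tl
    rw [← Int.cast_mul, ← this]
    split_ifs <;> push_cast <;> ring
  have hTg : ∀ l : ℕ, l.Prime → ¬ l ∣ N → l ≤ N ^ 6 → ∀ n, Tl l g n = (a l : ℂ) * g n := by
    intro l hl hlN hlY n
    have e : Tl l g n = Tl l b n - b 1 * Tl l (fun k => (a k : ℂ)) n := by
      have h2 := congrFun (map_sub (mone_T l) b ((b 1) • (fun k => (a k : ℂ)))) n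
      rw [map_smul] at h2
      exact h2
    rw [e, hT l hl hlN hlY n, hTa l hl hlN n]
    simp only [hg, Pi.sub_apply, Pi.smul_apply, smul_eq_mul]
    ring
  have hv := mone_van N (N ^ 6) g (fun l => (a l : ℂ)) hTg h0 h1
  have hd := hD N N g hN hN hgc
  have h3 := hS (N * N ^ 2) _ (Nat.mul_pos hN (Nat.pow_pos hN)) hd (by
    intro n hn
    have hn' : n ≤ N ^ 6 := by
      refine hn.trans (le_of_eq ?_)
      ring
    by_cases hc : Nat.Coprime n N
    · simp only [if_pos hc]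
      exact hv n hn' hc
    · simp only [if_neg hc])
  intro n hn
  have h4 := h3 n
  simp only [if_pos hn] at h4
  have h5 : b n - b 1 * a n = 0 := by
    simpa [hg] using h4
  exact sub_eq_zero.1 h5

theorem mone_main (hE : ST_EIG) (hFD : ST_FD) (hA : ST_AL) (hH : ST_HECKE) (hD : ST_DEPL)
    (hS : ST_STURM) (hQ : ST_QDIF) (N : ℕ) (a : ℕ → ℤ) (hN : 1 ≤ N) (ha : Newform N a) :
    ∀ M : ℕ, M ∣ N → ∀ (w : ℕ → ℂ) (lam : ℕ → ℂ), Cusp M w → w ≠ 0 →
      (∀ l : ℕ, l.Prime → ¬ l ∣ M → mone_T l w = lam l • w) →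
      (∀ l : ℕ, l.Prime → ¬ l ∣ N → l ≤ N ^ 6 → lam l = (a l : ℂ)) →
      (M < N ∨ w 1 = 0) → False := by
  intro M
  induction M using Nat.strong_induction_on with
  | _ M ih =>
    intro hMN w lam hw hw0 hlam hla hor
    have hM : 1 ≤ M := Nat.pos_of_dvd_of_pos hMN hN
    by_cases h1 : w 1 = 0
    · -- AL
      have h0 : w 0 = 0 := (hQ M w hM hw).1
      have hv : ∀ n, Nat.Coprime n M → w n = 0 := by
        intro n hn
        refine mone_van M n w lam (fun l hl hlM _ m => ?_) h0 h1 n le_rfl hn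
        exact congrFun (hlam l hl hlM) m
      obtain ⟨u, hu, hwu⟩ := hA M w hM hw hv
      obtain ⟨p, hp, x, hx, hx0, hxT⟩ := mone_E2 hE hFD hH M hM w u lam hu hwu hw0 hlam
      have hpM : p ∣ M := Nat.dvd_of_mem_primeFactors hp
      have hpp : p.Prime := Nat.prime_of_mem_primeFactors hp
      have hpos : 1 ≤ M / p := Nat.div_pos (Nat.le_of_dvd hM hpM) hpp.pos
      have hdv : M / p ∣ M := Nat.div_dvd_of_dvd hpM
      obtain ⟨S, hS1, hS2⟩ := hFD (M / p) hpos
      -- the joint eigenspace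
      let V : Submodule ℂ (ℕ → ℂ) := S ⊓ ⨅ l : {l : ℕ // l.Prime ∧ ¬ l ∣ M},
        LinearMap.ker (mone_T l.1 - lam l.1 • (1 : Module.End ℂ (ℕ → ℂ)))
      have hVm : ∀ b, b ∈ V ↔ Cusp (M / p) b ∧
          ∀ l : ℕ, l.Prime → ¬ l ∣ M → mone_T l b = lam l • b := by
        intro b
        simp only [V, Submodule.mem_inf, Submodule.mem_iInf, LinearMap.mem_ker,
          LinearMap.sub_apply, LinearMap.smul_apply, Module.End.one_apply, hS1, sub_eq_zero,
          Subtype.forall, and_imp]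
      have : FiniteDimensional ℂ V := Submodule.finiteDimensional_of_le (inf_le_left : V ≤ S)
      have hst : ∀ l ∈ {l : ℕ | l.Prime ∧ ¬ l ∣ M / p}, ∀ b ∈ V, mone_T l b ∈ V := by
        intro l hl b hb
        rw [hVm] at hb ⊢
        refine ⟨hH _ l b hpos hl.1 hl.2 hb.1, ?_⟩
        intro m hm hmM
        rw [mone_comm m l hm hl.1, hb.2 m hm hmM, map_smul]
      obtain ⟨y, hyV, hy0, μ, hμ⟩ := mone_E1 hE V {l : ℕ | l.Prime ∧ ¬ l ∣ M / p}
        (fun l hl => hl.1) hst x ((hVm x).2 ⟨hx, hxT⟩) hx0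
      rw [hVm] at hyV
      have hlt : M / p < M := Nat.div_lt_self hM hpp.one_lt
      refine ih (M / p) hlt (hdv.trans hMN) y μ hyV.1 hy0 (fun l hl hlM => hμ l ⟨hl, hlM⟩) ?_
        (Or.inl (lt_of_lt_of_le hlt (Nat.le_of_dvd hN hMN)))
      intro l hl hlN hlY
      have hlM : ¬ l ∣ M := fun h => hlN (h.trans hMN)
      have e1 := hμ l ⟨hl, fun h => hlM (h.trans hdv)⟩
      rw [hyV.2 l hl hlM, hla l hl hlN hlY] at e1
      have : ((a l : ℂ) - μ l) • y = 0 := by
        rw [sub_smul, e1, sub_self]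
      rcases smul_eq_zero.1 this with h | h
      · exact (sub_eq_zero.1 h).symm
      · exact absurd h hy0
    · -- newness
      have hlt : M < N := by
        rcases hor with h | h
        · exact h
        · exact absurd h h1
      have hc := mone_away hD hS hFD hQ N a hN ha w (mone_cusp_mono hMN hw) (by
        intro l hl hlN hlY n
        have := congrFun (hlam l hl (fun h => hlN (h.trans hMN))) n
        rw [hla l hl hlN hlY] at this
        exact this)
      have hall : ∀ l : ℕ, l.Prime → ¬ l ∣ N → lam l = (a l : ℂ) := by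
        intro l hl hlN
        have e1 := congrFun (hlam l hl (fun h => hlN (h.trans hMN))) 1
        have e2 : mone_T l w 1 = w l := by
          rw [mone_T_apply]
          unfold Tl
          rw [if_neg (fun h => hl.one_lt.ne' (Nat.dvd_one.1 h)), add_zero, mul_one]
        rw [e2, hc l ((Nat.Prime.coprime_iff_not_dvd hl).2 hlN)] at e1
        simp only [Pi.smul_apply, smul_eq_mul] at e1
        have e3 : w 1 * ((a l : ℂ) - lam l) = 0 := by linear_combination e1
        rcases mul_eq_zero.1 e3 with h | h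
        · exact absurd h h1
        · exact (sub_eq_zero.1 h).symm
      have := ha.new M hM hMN hlt w hw (by
        intro l hl hlN n
        have e := congrFun (hlam l hl (fun h => hlN (h.trans hMN))) n
        rw [hall l hl hlN] at e
        exact e)
      exact hw0 (funext this)

theorem st_MONE (hE : ST_EIG) (hFD : ST_FD) (hA : ST_AL) (hH : ST_HECKE) (hD : ST_DEPL)
    (hS : ST_STURM) (hQ : ST_QDIF) : ST_MONE := by
  intro N a hN ha b hb hT
  refine ⟨b 1, ?_⟩
  by_contra hcon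
  push Not at hcon
  obtain ⟨n0, hn0⟩ := hcon
  have haway := mone_away hD hS hFD hQ N a hN ha b hb hT
  obtain ⟨S, hS1, hS2⟩ := hFD N hN
  set g : ℕ → ℂ := b - (b 1) • (fun k => (a k : ℂ)) with hg
  have hgc : Cusp N g := by
    rw [← hS1]
    exact S.sub_mem ((hS1 _).2 hb) (S.smul_mem _ ((hS1 _).2 ha.cusp))
  have hg0 : g ≠ 0 := by
    intro h
    apply hn0
    have := congrFun h n0
    simp only [hg, Pi.sub_apply, Pi.smul_apply, smul_eq_mul, Pi.zero_apply] at this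
    exact sub_eq_zero.1 this
  have hgv : ∀ n, Nat.Coprime n N → g n = 0 := by
    intro n hn
    simp only [hg, Pi.sub_apply, Pi.smul_apply, smul_eq_mul]
    rw [haway n hn, sub_self]
  have hTa : ∀ l : ℕ, l.Prime → ¬ l ∣ N → ∀ n, Tl l (fun k => (a k : ℂ)) n = (a l : ℂ) * a n := by
    intro l hl hlN n
    have := ha.hecke l hl hlN n
    unfold Tl
    rw [← Int.cast_mul, ← this]
    split_ifs <;> push_cast <;> ring
  have hTg : ∀ l : ℕ, l.Prime → ¬ l ∣ N → l ≤ N ^ 6 → mone_T l g = (a l : ℂ) • g := by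
    intro l hl hlN hlY
    rw [hg, map_sub, map_smul]
    funext n
    have e1 := hT l hl hlN hlY n
    have e2 := hTa l hl hlN n
    simp only [Pi.sub_apply, Pi.smul_apply, smul_eq_mul, mone_T_apply]
    rw [e1, e2]
    ring
  let V : Submodule ℂ (ℕ → ℂ) := S ⊓ ⨅ l : {l : ℕ // l.Prime ∧ ¬ l ∣ N ∧ l ≤ N ^ 6},
    LinearMap.ker (mone_T l.1 - (a l.1 : ℂ) • (1 : Module.End ℂ (ℕ → ℂ)))
  have hVm : ∀ c, c ∈ V ↔ Cusp N c ∧
      ∀ l : ℕ, l.Prime → ¬ l ∣ N → l ≤ N ^ 6 → mone_T l c = (a l : ℂ) • c := by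
    intro c
    simp only [V, Submodule.mem_inf, Submodule.mem_iInf, LinearMap.mem_ker,
      LinearMap.sub_apply, LinearMap.smul_apply, Module.End.one_apply, hS1, sub_eq_zero,
      Subtype.forall, and_imp]
  let V' : Submodule ℂ (ℕ → ℂ) := V ⊓ ⨅ n : {n : ℕ // Nat.Coprime n N},
    LinearMap.ker (LinearMap.proj n.1 : (ℕ → ℂ) →ₗ[ℂ] ℂ)
  have hVm' : ∀ c, c ∈ V' ↔ c ∈ V ∧ ∀ n, Nat.Coprime n N → c n = 0 := by
    intro c
    simp only [V', Submodule.mem_inf, Submodule.mem_iInf, LinearMap.mem_ker,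
      LinearMap.proj_apply, Subtype.forall]
  have : FiniteDimensional ℂ V' := Submodule.finiteDimensional_of_le
    ((inf_le_left : V' ≤ V).trans (inf_le_left : V ≤ S))
  have hst : ∀ l ∈ {l : ℕ | l.Prime ∧ ¬ l ∣ N}, ∀ c ∈ V', mone_T l c ∈ V' := by
    intro l hl c hc
    rw [hVm', hVm] at hc ⊢
    refine ⟨⟨hH _ l c hN hl.1 hl.2 hc.1.1, ?_⟩, ?_⟩
    · intro m hm hmN hmY
      rw [mone_comm m l hm hl.1, hc.1.2 m hm hmN hmY, map_smul]
    · intro n hn
      rw [mone_T_apply]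
      unfold Tl
      rw [hc.2 (l * n) (Nat.Coprime.mul_left ((Nat.Prime.coprime_iff_not_dvd hl.1).2 hl.2) hn),
        zero_add]
      split_ifs with hd
      · rw [hc.2 (n / l) (Nat.Coprime.of_dvd_left (Nat.div_dvd_of_dvd hd) hn), mul_zero]
      · rfl
  obtain ⟨y, hyV, hy0, μ, hμ⟩ := mone_E1 hE V' {l : ℕ | l.Prime ∧ ¬ l ∣ N}
    (fun l hl => hl.1) hst g ((hVm' g).2 ⟨(hVm g).2 ⟨hgc, hTg⟩, hgv⟩) hg0
  rw [hVm', hVm] at hyV
  refine mone_main hE hFD hA hH hD hS hQ N a hN ha N (dvd_refl N) y μ hyV.1.1 hy0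
    (fun l hl hlN => hμ l ⟨hl, hlN⟩) ?_ (Or.inr (hyV.2 1 (Nat.coprime_one_left N)))
  intro l hl hlN hlY
  have e1 := hμ l ⟨hl, hlN⟩
  rw [hyV.1.2 l hl hlN hlY] at e1
  have : ((a l : ℂ) - μ l) • y = 0 := by
    rw [sub_smul, e1, sub_self]
  rcases smul_eq_zero.1 this with h | h
  · exact (sub_eq_zero.1 h).symm
  · exact absurd h hy0

end Pool.Agent.Helper96.MP
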